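import Pool.Agent.Helper40_ZOL.Stmts

/-!
# ZOL: tools for sub-words, labels, shapes and signs
-/

namespace Pool.Agent.ZOL.H11

open Finset

/-! ### labels and sub-words -/

theorem mem_labels {q : ℕ} {w : Word} : q ∈ labels w ↔ ∃ l ∈ w, l.1 = q := by
  simp [labels]

theorem labels_nil : labels [] = ∅ := rfl

theorem labels_append (u v : Word) : labels (u ++ v) = labels u ∪ labels v := by
  simp [labels]

theorem labels_cons (l : Letter) (v : Word) : labels (l :: v) = insert l.1 (labels v) := by
  simp [labels]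

theorem sub_append (S : Finset ℕ) (u v : Word) : sub S (u ++ v) = sub S u ++ sub S v := by
  simp [sub]

theorem mem_sub {S : Finset ℕ} {w : Word} {l : Letter} : l ∈ sub S w ↔ l ∈ w ∧ l.1 ∈ S := by
  simp [sub]

theorem sub_cons (S : Finset ℕ) (l : Letter) (v : Word) :
    sub S (l :: v) = if l.1 ∈ S then l :: sub S v else sub S v := by
  by_cases h : l.1 ∈ S
  · simp [sub, h]
  · simp [sub, h]

theorem sub_nil (S : Finset ℕ) : sub S [] = [] := rfl

/-- a sub-word without letters -/
theorem sub_eq_nil {S : Finset ℕ} {w : Word} (h : ∀ q ∈ labels w, q ∉ S) : sub S w = [] := by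
  rw [sub, List.filter_eq_nil_iff]
  intro l hl
  have := h l.1 (mem_labels.2 ⟨l, hl, rfl⟩)
  simpa using this

/-- the sub-word depends only on the labels in the word -/
theorem sub_congr {S T : Finset ℕ} {w : Word} (h : ∀ q ∈ labels w, (q ∈ S ↔ q ∈ T)) :
    sub S w = sub T w := by
  unfold sub
  apply List.filter_congr
  intro l hl
  have := h l.1 (mem_labels.2 ⟨l, hl, rfl⟩)
  simp [this]

theorem sub_insert {S : Finset ℕ} {w : Word} {a : ℕ} (h : a ∉ labels w) :
    sub (insert a S) w = sub S w := by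
  apply sub_congr
  intro q hq
  rw [Finset.mem_insert]
  constructor
  · rintro (rfl | h1)
    · exact absurd hq h
    · exact h1
  · exact fun h1 => Or.inr h1

theorem labels_sub (S : Finset ℕ) (w : Word) : labels (sub S w) ⊆ labels w ∩ S := by
  intro q hq
  obtain ⟨l, hl, rfl⟩ := mem_labels.1 hq
  obtain ⟨h1, h2⟩ := mem_sub.1 hl
  exact Finset.mem_inter.2 ⟨mem_labels.2 ⟨l, h1, rfl⟩, h2⟩

/-! ### Gauss words -/

/-- a Gauss word contains every label exactly twice -/
theorem gauss_len {w : Word} (h : IsGauss w) {q : ℕ} (hq : q ∈ labels w) :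
    (sub {q} w).length = 2 := by
  obtain ⟨l, hl⟩ := h q hq
  rw [hl]
  rfl

theorem gauss_len_le {w : Word} (h : IsGauss w) (q : ℕ) : (sub {q} w).length ≤ 2 := by
  by_cases hq : q ∈ labels w
  · exact (gauss_len h hq).le
  · rw [sub_eq_nil (fun p hp => by
      rw [Finset.mem_singleton]
      rintro rfl
      exact hq hp)]
    exact Nat.zero_le _

/-- splitting a list at the two elements with a property -/
theorem filter_two {α : Type} {p : α → Bool} {w : List α} {x y : α} (h : w.filter p = [x, y]) :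
    ∃ u v z, w = u ++ [x] ++ v ++ [y] ++ z ∧ (∀ t ∈ u, ¬ p t) ∧ (∀ t ∈ v, ¬ p t) ∧
      (∀ t ∈ z, ¬ p t) ∧ p x ∧ p y := by
  obtain ⟨u, w', hw, hu, hx, h'⟩ := List.filter_eq_cons_iff.1 h
  obtain ⟨v, z, hw', hv, hy, hz⟩ := List.filter_eq_cons_iff.1 h'
  refine ⟨u, v, z, ?_, hu, hv, ?_, hx, hy⟩
  · rw [hw, hw']
    simp
  · intro t ht
    have := List.filter_eq_nil_iff.1 hz t ht
    exact this

/-! ### shapes -/

theorem idxOf_map_inj {σ : ℕ → ℕ} : ∀ {l : List ℕ} {a : ℕ}, a ∈ l →
    (∀ x ∈ l, σ x = σ a → x = a) → (l.map σ).idxOf (σ a) = l.idxOf a := by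
  intro l
  induction l with
  | nil => intro a ha; simp at ha
  | cons x l ih =>
    intro a ha h
    by_cases hx : x = a
    · subst hx
      simp [List.idxOf_cons]
    · have h1 : σ x ≠ σ a := fun h2 => hx (h x (by simp) h2)
      have h2 : a ∈ l := by
        rcases List.mem_cons.1 ha with h3 | h3
        · exact absurd h3.symm hx
        · exact h3
      have h3 := ih h2 (fun y hy => h y (List.mem_cons_of_mem _ hy))
      rw [List.map_cons, List.idxOf_cons, List.idxOf_cons, h3]
      have e1 : (σ x == σ a) = false := by simpa using h1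
      have e2 : (x == a) = false := by simpa using hx
      rw [e1, e2]

/-- the shape depends only on the pattern of the labels and the flags `over` -/
theorem shape_map {w : Word} {g : Letter → Letter} {σ : ℕ → ℕ} (h1 : ∀ l ∈ w, (g l).1 = σ l.1)
    (h2 : ∀ l ∈ w, (g l).2.2 = l.2.2) (hσ : Set.InjOn σ (labels w : Set ℕ)) :
    shape (w.map g) = shape w := by
  unfold shape
  have h3 : (w.map g).map Prod.fst = (w.map Prod.fst).map σ := by
    rw [List.map_map, List.map_map]
    exact List.map_congr_left h1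
  rw [h3, List.map_map]
  apply List.map_congr_left
  intro l hl
  have h4 : l.1 ∈ w.map Prod.fst := List.mem_map_of_mem hl
  change (((w.map Prod.fst).map σ).idxOf (g l).1, (g l).2.2) = _
  rw [h1 l hl, h2 l hl, idxOf_map_inj h4]
  intro x hx hxl
  apply hσ
  · rw [Finset.mem_coe, mem_labels]
    obtain ⟨l', hl', rfl⟩ := List.mem_map.1 hx
    exact ⟨l', hl', rfl⟩
  · rw [Finset.mem_coe, mem_labels]
    exact ⟨l, hl, rfl⟩
  · exact hxl

theorem shape_length (w : Word) : (shape w).length = w.length := by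
  simp [shape]

theorem shape_getElem? (w : Word) (i : ℕ) :
    (shape w)[i]? = (w[i]?).map (fun l => ((w.map Prod.fst).idxOf l.1, l.2.2)) := by
  simp [shape]

/-! ### signs -/

theorem wsgn_append (u v : Word) : wsgn (u ++ v) = wsgn u * wsgn v := by
  simp [wsgn]

theorem wsgn_nil : wsgn [] = 1 := rfl

end Pool.Agent.ZOL.H11
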