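import Pool.Agent.Helper11_ZOL.Kit

/-!
# ZOL: planarity of products
-/

namespace Pool.Agent.ZOL.H11

open Finset

theorem between_nil {a : ℕ} {v : Shadow} (h : ∀ x ∈ v, x.1 ≠ a) : between a v = [] := by
  unfold between
  have h1 : v.dropWhile (fun x => decide (x.1 ≠ a)) = [] := by
    rw [List.dropWhile_eq_nil_iff]
    intro x hx
    exact decide_eq_true (h x hx)
  rw [h1]
  rfl

theorem between_split {a : ℕ} {p q r : Shadow} {x y : ℕ × Bool} (hx : x.1 = a) (hy : y.1 = a)
    (hp : ∀ z ∈ p, z.1 ≠ a) (hq : ∀ z ∈ q, z.1 ≠ a) :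
    between a (p ++ [x] ++ q ++ [y] ++ r) = q := by
  unfold between
  have h1 : (p ++ [x] ++ q ++ [y] ++ r).dropWhile (fun x => decide (x.1 ≠ a)) =
      x :: (q ++ (y :: r)) := by
    have : p ++ [x] ++ q ++ [y] ++ r = p ++ (x :: (q ++ (y :: r))) := by simp
    rw [this, List.dropWhile_append_of_pos (fun z hz => decide_eq_true (hp z hz)),
      List.dropWhile_cons_of_neg (by simp [hx])]
  rw [h1, List.tail_cons, List.takeWhile_append_of_pos (fun z hz => decide_eq_true (hq z hz)),
    List.takeWhile_cons_of_neg (by simp [hy]), List.append_nil]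

/-- every label occurs exactly twice -/
def Tw (v : Shadow) : Prop := ∀ a, (∃ x ∈ v, x.1 = a) → ∃ (p q r : Shadow) (x y : ℕ × Bool),
  v = p ++ [x] ++ q ++ [y] ++ r ∧ x.1 = a ∧ y.1 = a ∧ (∀ z ∈ p, z.1 ≠ a) ∧ ∀ z ∈ q, z.1 ≠ a

theorem tw {w : Word} (h : IsGauss w) : Tw (shadow w) := by
  intro a ha
  obtain ⟨x, hx, hxa⟩ := ha
  obtain ⟨l, hl, rfl⟩ := List.mem_map.1 hx
  have hl1 : l.1 = a := hxa
  obtain ⟨y, hy⟩ := h a (mem_labels.2 ⟨l, hl, hl1⟩)
  obtain ⟨u, v, z, hw, hu, hv, -, hpy, hpy'⟩ := filter_two hy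
  refine ⟨shadow u, shadow v, shadow z, (y.1, y.2.1), ((bar y).1, (bar y).2.1), ?_, ?_, ?_, ?_, ?_⟩
  · rw [hw]
    simp [shadow]
  · simpa using hpy
  · simpa using hpy'
  · intro t ht
    obtain ⟨t', ht', rfl⟩ := List.mem_map.1 ht
    have := hu t' ht'
    simpa using this
  · intro t ht
    obtain ⟨t', ht', rfl⟩ := List.mem_map.1 ht
    have := hv t' ht'
    simpa using this

/-- even labels -/
def t0 (x : ℕ × Bool) : ℕ × Bool := (2 * x.1, x.2)

/-- odd labels -/
def t1 (x : ℕ × Bool) : ℕ × Bool := (2 * x.1 + 1, x.2)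

theorem shadow_mul (w E : Word) : shadow (mul w E) = (shadow w).map t0 ++ (shadow E).map t1 := by
  simp only [shadow, mul, relab, List.map_append, List.map_map]
  rfl

theorem t0_inj {x y : ℕ × Bool} (h : t0 x = t0 y) : x = y := by
  unfold t0 at h
  simp only [Prod.mk.injEq] at h
  exact Prod.ext (by omega) h.2

theorem t1_inj {x y : ℕ × Bool} (h : t1 x = t1 y) : x = y := by
  unfold t1 at h
  simp only [Prod.mk.injEq] at h
  exact Prod.ext (by omega) h.2

theorem t01 (x y : ℕ × Bool) : t0 x ≠ t1 y := by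
  intro h
  unfold t0 t1 at h
  simp only [Prod.mk.injEq] at h
  omega

variable {v v' : Shadow}

theorem between_even (hv : Tw v) (a : ℕ) :
    between (2 * a) (v.map t0 ++ v'.map t1) = (between a v).map t0 := by
  by_cases h : ∃ x ∈ v, x.1 = a
  · obtain ⟨p, q, r, x, y, rfl, hx, hy, hp, hq⟩ := hv a h
    rw [between_split hx hy hp hq]
    have h1 : (p ++ [x] ++ q ++ [y] ++ r).map t0 ++ v'.map t1 =
        p.map t0 ++ [t0 x] ++ q.map t0 ++ [t0 y] ++ (r.map t0 ++ v'.map t1) := by simp
    rw [h1]
    apply between_split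
    · simp [t0, hx]
    · simp [t0, hy]
    · intro z hz
      obtain ⟨z', hz', rfl⟩ := List.mem_map.1 hz
      have := hp z' hz'
      simp only [t0]
      omega
    · intro z hz
      obtain ⟨z', hz', rfl⟩ := List.mem_map.1 hz
      have := hq z' hz'
      simp only [t0]
      omega
  · push Not at h
    rw [between_nil h, between_nil]
    · rfl
    · intro z hz
      rcases List.mem_append.1 hz with h1 | h1
      · obtain ⟨z', hz', rfl⟩ := List.mem_map.1 h1
        have := h z' hz'
        simp only [t0]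
        omega
      · obtain ⟨z', hz', rfl⟩ := List.mem_map.1 h1
        simp only [t1]
        omega

theorem between_odd (hv : Tw v') (a : ℕ) :
    between (2 * a + 1) (v.map t0 ++ v'.map t1) = (between a v').map t1 := by
  by_cases h : ∃ x ∈ v', x.1 = a
  · obtain ⟨p, q, r, x, y, rfl, hx, hy, hp, hq⟩ := hv a h
    rw [between_split hx hy hp hq]
    have h1 : v.map t0 ++ (p ++ [x] ++ q ++ [y] ++ r).map t1 =
        (v.map t0 ++ p.map t1) ++ [t1 x] ++ q.map t1 ++ [t1 y] ++ r.map t1 := by simp
    rw [h1]
    apply between_split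
    · simp [t1, hx]
    · simp [t1, hy]
    · intro z hz
      rcases List.mem_append.1 hz with h1 | h1
      · obtain ⟨z', hz', rfl⟩ := List.mem_map.1 h1
        simp only [t0]
        omega
      · obtain ⟨z', hz', rfl⟩ := List.mem_map.1 h1
        have := hp z' hz'
        simp only [t1]
        omega
    · intro z hz
      obtain ⟨z', hz', rfl⟩ := List.mem_map.1 hz
      have := hq z' hz'
      simp only [t1]
      omega
  · push Not at h
    rw [between_nil h, between_nil]
    · rfl
    · intro z hz
      rcases List.mem_append.1 hz with h1 | h1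
      · obtain ⟨z', hz', rfl⟩ := List.mem_map.1 h1
        simp only [t0]
        omega
      · obtain ⟨z', hz', rfl⟩ := List.mem_map.1 h1
        have := h z' hz'
        simp only [t1]
        omega

theorem wt_even0 (hv : Tw v) (a : ℕ) (x : ℕ × Bool) :
    wt (2 * a) (v.map t0 ++ v'.map t1) (t0 x) = wt a v x := by
  unfold wt
  rw [between_even hv]
  have h1 : ((t0 x).1 = 2 * a) = (x.1 = a) := by
    simp only [t0]
    apply propext
    omega
  have h2 : (t0 x ∈ (between a v).map t0) = (x ∈ between a v) := by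
    apply propext
    constructor
    · intro h
      obtain ⟨y, hy, hyx⟩ := List.mem_map.1 h
      rw [← t0_inj hyx]
      exact hy
    · exact fun h => List.mem_map_of_mem h
  simp only [h1, h2]

theorem wt_even1 (hv : Tw v) (a : ℕ) (x : ℕ × Bool) :
    wt (2 * a) (v.map t0 ++ v'.map t1) (t1 x) = 0 := by
  unfold wt
  rw [between_even hv, if_neg, if_neg]
  · intro h
    obtain ⟨y, hy, hyx⟩ := List.mem_map.1 h
    exact t01 _ _ hyx
  · simp only [t1]
    omega

theorem wt_odd1 (hv : Tw v') (a : ℕ) (x : ℕ × Bool) :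
    wt (2 * a + 1) (v.map t0 ++ v'.map t1) (t1 x) = wt a v' x := by
  unfold wt
  rw [between_odd hv]
  have h1 : ((t1 x).1 = 2 * a + 1) = (x.1 = a) := by
    simp only [t1]
    apply propext
    omega
  have h2 : (t1 x ∈ (between a v').map t1) = (x ∈ between a v') := by
    apply propext
    constructor
    · intro h
      obtain ⟨y, hy, hyx⟩ := List.mem_map.1 h
      rw [← t1_inj hyx]
      exact hy
    · exact fun h => List.mem_map_of_mem h
  simp only [h1, h2]

theorem wt_odd0 (hv : Tw v') (a : ℕ) (x : ℕ × Bool) :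
    wt (2 * a + 1) (v.map t0 ++ v'.map t1) (t0 x) = 0 := by
  unfold wt
  rw [between_odd hv, if_neg, if_neg]
  · intro h
    obtain ⟨y, hy, hyx⟩ := List.mem_map.1 h
    exact t01 _ _ hyx.symm
  · simp only [t0]
    omega

theorem sum_two (f : ℕ × Bool → ℤ) : ((v.map t0 ++ v'.map t1).map f).sum =
    (v.map (fun x => f (t0 x))).sum + (v'.map (fun x => f (t1 x))).sum := by
  rw [List.map_append, List.sum_append, List.map_map, List.map_map]
  rfl

theorem sum_zero' {α : Type} (l : List α) : (l.map (fun _ => (0 : ℤ))).sum = 0 := by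
  simp

/-- MPLA -/
theorem mpla : MPlaStmt := by
  intro w E hw hE pw pE
  have tw0 := tw hw
  have tw1 := tw hE
  rw [shadow_mul]
  refine ⟨?_, ?_⟩
  · intro a
    obtain ⟨a', rfl | rfl⟩ := Nat.even_or_odd' a
    · rw [between_even tw0, List.map_map]
      exact pw.1 a'
    · rw [between_odd tw1, List.map_map]
      exact pE.1 a'
  · intro a b
    rw [sum_two]
    obtain ⟨a', rfl | rfl⟩ := Nat.even_or_odd' a
    · obtain ⟨b', rfl | rfl⟩ := Nat.even_or_odd' b
      · have e1 : (fun x : ℕ × Bool => eps (t0 x) *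
            wt (2 * a') ((shadow w).map t0 ++ (shadow E).map t1) (t0 x) *
            wt (2 * b') ((shadow w).map t0 ++ (shadow E).map t1) ((t0 x).1, !(t0 x).2)) =
            fun x => eps x * wt a' (shadow w) x * wt b' (shadow w) (x.1, !x.2) := by
          funext x
          have e2 : ((t0 x).1, !(t0 x).2) = t0 (x.1, !x.2) := rfl
          rw [e2, wt_even0 tw0, wt_even0 tw0]
          rfl
        have e3 : (fun x : ℕ × Bool => eps (t1 x) *
            wt (2 * a') ((shadow w).map t0 ++ (shadow E).map t1) (t1 x) *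
            wt (2 * b') ((shadow w).map t0 ++ (shadow E).map t1) ((t1 x).1, !(t1 x).2)) =
            fun _ => 0 := by
          funext x
          rw [wt_even1 tw0]
          ring
        rw [e1, e3, sum_zero', pw.2 a' b', add_zero]
      · have e1 : (fun x : ℕ × Bool => eps (t0 x) *
            wt (2 * a') ((shadow w).map t0 ++ (shadow E).map t1) (t0 x) *
            wt (2 * b' + 1) ((shadow w).map t0 ++ (shadow E).map t1) ((t0 x).1, !(t0 x).2)) =
            fun _ => 0 := by
          funext x
          have e2 : ((t0 x).1, !(t0 x).2) = t0 (x.1, !x.2) := rfl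
          rw [e2, wt_odd0 tw1]
          ring
        have e3 : (fun x : ℕ × Bool => eps (t1 x) *
            wt (2 * a') ((shadow w).map t0 ++ (shadow E).map t1) (t1 x) *
            wt (2 * b' + 1) ((shadow w).map t0 ++ (shadow E).map t1) ((t1 x).1, !(t1 x).2)) =
            fun _ => 0 := by
          funext x
          rw [wt_even1 tw0]
          ring
        rw [e1, e3, sum_zero', sum_zero', add_zero]
    · obtain ⟨b', rfl | rfl⟩ := Nat.even_or_odd' b
      · have e1 : (fun x : ℕ × Bool => eps (t0 x) *
            wt (2 * a' + 1) ((shadow w).map t0 ++ (shadow E).map t1) (t0 x) *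
            wt (2 * b') ((shadow w).map t0 ++ (shadow E).map t1) ((t0 x).1, !(t0 x).2)) =
            fun _ => 0 := by
          funext x
          rw [wt_odd0 tw1]
          ring
        have e3 : (fun x : ℕ × Bool => eps (t1 x) *
            wt (2 * a' + 1) ((shadow w).map t0 ++ (shadow E).map t1) (t1 x) *
            wt (2 * b') ((shadow w).map t0 ++ (shadow E).map t1) ((t1 x).1, !(t1 x).2)) =
            fun _ => 0 := by
          funext x
          have e2 : ((t1 x).1, !(t1 x).2) = t1 (x.1, !x.2) := rfl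
          rw [e2, wt_even1 tw0]
          ring
        rw [e1, e3, sum_zero', sum_zero', add_zero]
      · have e1 : (fun x : ℕ × Bool => eps (t1 x) *
            wt (2 * a' + 1) ((shadow w).map t0 ++ (shadow E).map t1) (t1 x) *
            wt (2 * b' + 1) ((shadow w).map t0 ++ (shadow E).map t1) ((t1 x).1, !(t1 x).2)) =
            fun x => eps x * wt a' (shadow E) x * wt b' (shadow E) (x.1, !x.2) := by
          funext x
          have e2 : ((t1 x).1, !(t1 x).2) = t1 (x.1, !x.2) := rfl
          rw [e2, wt_odd1 tw1, wt_odd1 tw1]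
          rfl
        have e3 : (fun x : ℕ × Bool => eps (t0 x) *
            wt (2 * a' + 1) ((shadow w).map t0 ++ (shadow E).map t1) (t0 x) *
            wt (2 * b' + 1) ((shadow w).map t0 ++ (shadow E).map t1) ((t0 x).1, !(t0 x).2)) =
            fun _ => 0 := by
          funext x
          rw [wt_odd0 tw1]
          ring
        rw [e1, e3, sum_zero', pE.2 a' b', zero_add]

end Pool.Agent.ZOL.H11
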