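import Pool.Agent.Helper11_ZOL.Kit

/-!
# ZOL: the second Reidemeister move
-/

namespace Pool.Agent.ZOL.H11

open Finset

/-- the positions of two adjacent passages of two parallel or antiparallel crossings -/
def Bad (p : List (ℕ × Bool)) : Prop :=
  ∃ i ∈ List.range 8, ∃ j ∈ List.range 8, i + 1 < j ∧
    ∃ x y x' y', p[i]? = some x ∧ p[i + 1]? = some y ∧ p[j]? = some x' ∧ p[j + 1]? = some y' ∧
      x.2 = y.2 ∧ ((x.1 = x'.1 ∧ y.1 = y'.1) ∨ (x.1 = y'.1 ∧ y.1 = x'.1))

/-- a decidable form -/
def badB (p : List (ℕ × Bool)) : Bool :=
  (List.range 8).any fun i => (List.range 8).any fun j => decide (i + 1 < j) &&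
    match p[i]?, p[i + 1]?, p[j]?, p[j + 1]? with
    | some x, some y, some x', some y' =>
      (x.2 == y.2) && (((x.1 == x'.1) && (y.1 == y'.1)) || ((x.1 == y'.1) && (y.1 == x'.1)))
    | _, _, _, _ => false

theorem badB_of_bad {p : List (ℕ × Bool)} (h : Bad p) : badB p = true := by
  obtain ⟨i, hi, j, hj, hij, x, y, x', y', h1, h2, h3, h4, h5, h6⟩ := h
  rw [badB, List.any_eq_true]
  refine ⟨i, hi, ?_⟩
  rw [List.any_eq_true]
  refine ⟨j, hj, ?_⟩
  rw [h1, h2, h3, h4]
  simp only [Bool.and_eq_true, decide_eq_true_eq, beq_iff_eq, Bool.or_eq_true]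
  exact ⟨hij, h5, h6⟩

theorem p2_good : ∀ p ∈ P2, badB p = false := by decide

theorem p3_good : ∀ p ∈ P3, badB p = false := by decide

theorem p2_len : ∀ p ∈ P2, p.length ≤ 6 := by decide

theorem p3_len : ∀ p ∈ P3, p.length ≤ 6 := by decide

/-- the pattern function vanishes if the word contains two parallel crossings of a second move -/
theorem f_bad {P : List (List (ℕ × Bool))} (hP : ∀ p ∈ P, badB p = false)
    (hl : ∀ p ∈ P, p.length ≤ 6) (x y z : Word) (a b : ℕ) (r o : Bool) (q : Bool) :
    f P (x ++ [(a, r, o), (b, !r, o)] ++ y ++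
      (if q then [(a, !r, !o), (b, r, !o)] else [(b, r, !o), (a, !r, !o)]) ++ z) = 0 := by
  rw [f, if_neg]
  intro hmem
  have h1 := hP _ hmem
  have h2 := hl _ hmem
  rw [shape_length] at h2
  have h3 : badB (shape (x ++ [(a, r, o), (b, !r, o)] ++ y ++
      (if q then [(a, !r, !o), (b, r, !o)] else [(b, r, !o), (a, !r, !o)]) ++ z)) = true := by
    apply badB_of_bad
    set w := x ++ [(a, r, o), (b, !r, o)] ++ y ++
      (if q then [(a, !r, !o), (b, r, !o)] else [(b, r, !o), (a, !r, !o)]) ++ z with hw
    have e0 : w.length = x.length + 2 + y.length + 2 + z.length := by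
      rw [hw]
      cases q <;> simp <;> omega
    have i1 : w[x.length]? = some (a, r, o) := by
      rw [hw]
      simp only [List.append_assoc]
      rw [List.getElem?_append_right le_rfl, Nat.sub_self]
      rfl
    have i2 : w[x.length + 1]? = some (b, !r, o) := by
      rw [hw]
      simp only [List.append_assoc]
      rw [List.getElem?_append_right (by omega)]
      have : x.length + 1 - x.length = 1 := by omega
      rw [this]
      rfl
    have i3 : w[x.length + 2 + y.length]? = some (if q then (a, !r, !o) else (b, r, !o)) := by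
      rw [hw]
      simp only [List.append_assoc]
      rw [List.getElem?_append_right (by omega)]
      have : x.length + 2 + y.length - x.length = 2 + y.length := by omega
      rw [this, List.getElem?_append_right (by simp)]
      have : 2 + y.length - [(a, r, o), (b, !r, o)].length = y.length := by simp
      rw [this, List.getElem?_append_right le_rfl, Nat.sub_self]
      cases q <;> rfl
    have i4 : w[x.length + 2 + y.length + 1]? = some (if q then (b, r, !o) else (a, !r, !o)) := by
      rw [hw]
      simp only [List.append_assoc]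
      rw [List.getElem?_append_right (by omega)]
      have : x.length + 2 + y.length + 1 - x.length = 2 + (y.length + 1) := by omega
      rw [this, List.getElem?_append_right (by simp)]
      have : 2 + (y.length + 1) - [(a, r, o), (b, !r, o)].length = y.length + 1 := by simp
      rw [this, List.getElem?_append_right (by omega), Nat.add_sub_cancel_left]
      cases q <;> rfl
    have j1 := shape_getElem? w x.length
    have j2 := shape_getElem? w (x.length + 1)
    have j3 := shape_getElem? w (x.length + 2 + y.length)
    have j4 := shape_getElem? w (x.length + 2 + y.length + 1)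
    rw [i1, Option.map_some] at j1
    rw [i2, Option.map_some] at j2
    rw [i3, Option.map_some] at j3
    rw [i4, Option.map_some] at j4
    refine ⟨x.length, ?_, x.length + 2 + y.length, ?_, by omega, _, _, _, _, j1, j2, j3, j4, ?_⟩
    · rw [List.mem_range]
      omega
    · rw [List.mem_range]
      omega
    · refine ⟨rfl, ?_⟩
      cases q
      · right
        exact ⟨rfl, rfl⟩
      · left
        exact ⟨rfl, rfl⟩
  rw [h1] at h3
  exact absurd h3 (by decide)

/-- the contributions of the two crossings of a second move cancel -/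
theorem f_cancel (P : List (List (ℕ × Bool))) (x y z : Word) (a b : ℕ) (r o : Bool)
    (ha : a ∉ labels (x ++ y ++ z)) (hb : b ∉ labels (x ++ y ++ z)) :
    f P (x ++ [(a, r, o)] ++ y ++ [(a, !r, !o)] ++ z) +
      f P (x ++ [(b, !r, o)] ++ y ++ [(b, r, !o)] ++ z) = 0 := by
  have hs : shape (x ++ [(b, !r, o)] ++ y ++ [(b, r, !o)] ++ z) =
      shape (x ++ [(a, r, o)] ++ y ++ [(a, !r, !o)] ++ z) := by
    have h1 : x ++ [(b, !r, o)] ++ y ++ [(b, r, !o)] ++ z =
        (x ++ [(a, r, o)] ++ y ++ [(a, !r, !o)] ++ z).map
          (fun l => if l.1 = a then (b, !l.2.1, l.2.2) else l) := by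
      have hx : ∀ u : Word, a ∉ labels u → u.map (fun l : Letter => if l.1 = a then
          ((b, !l.2.1, l.2.2) : Letter) else l) = u := by
        intro u hu
        conv_rhs => rw [← List.map_id u]
        apply List.map_congr_left
        intro l hl
        have : l.1 ≠ a := fun h => hu (mem_labels.2 ⟨l, hl, h⟩)
        rw [if_neg this]
        rfl
      simp only [labels_append, Finset.mem_union, not_or] at ha
      rw [List.map_append, List.map_append, List.map_append, List.map_append, hx x ha.1.1,
        hx y ha.1.2, hx z ha.2]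
      simp
    rw [h1]
    apply shape_map (σ := fun n => if n = a then b else n)
    · intro l _
      by_cases h : l.1 = a
      · simp [h]
      · simp [h]
    · intro l _
      by_cases h : l.1 = a
      · simp [h]
      · simp [h]
    · intro n hn m hm hnm
      rw [Finset.mem_coe] at hn hm
      have key : ∀ n ∈ labels (x ++ [(a, r, o)] ++ y ++ [(a, !r, !o)] ++ z), n ≠ a →
          n ∈ labels (x ++ y ++ z) := by
        intro n hn hna
        simp only [labels_append, labels_cons, labels_nil, Finset.mem_union,
          Finset.mem_insert, Finset.notMem_empty, or_false] at hn ⊢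
        tauto
      simp only at hnm
      by_cases h1 : n = a
      · by_cases h2 : m = a
        · rw [h1, h2]
        · rw [if_pos h1, if_neg h2] at hnm
          have := key m hm h2
          rw [← hnm] at this
          exact absurd this hb
      · by_cases h2 : m = a
        · rw [if_neg h1, if_pos h2] at hnm
          have := key n hn h1
          rw [hnm] at this
          exact absurd this hb
        · rw [if_neg h1, if_neg h2] at hnm
          exact hnm
  have hw : wsgn (x ++ [(b, !r, o)] ++ y ++ [(b, r, !o)] ++ z) =
      - wsgn (x ++ [(a, r, o)] ++ y ++ [(a, !r, !o)] ++ z) := by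
    simp only [wsgn_append]
    have h1 : wsgn [(b, !r, o)] * wsgn [(b, r, !o)] = -(wsgn [(a, r, o)] * wsgn [(a, !r, !o)]) := by
      cases r <;> cases o <;> rfl
    linear_combination (wsgn x * wsgn y * wsgn z) * h1
  unfold f
  rw [hs, hw]
  by_cases h : shape (x ++ [(a, r, o)] ++ y ++ [(a, !r, !o)] ++ z) ∈ P
  · rw [if_pos h, if_pos h]
    ring
  · rw [if_neg h, if_neg h]
    ring

/-- both forms of the second move -/
theorem vr2 {P : List (List (ℕ × Bool))} (hP : ∀ p ∈ P, badB p = false)
    (hl : ∀ p ∈ P, p.length ≤ 6) (u v z : Word) (a b : ℕ) (r o : Bool) (q : Bool)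
    (hG : IsGauss (u ++ [(a, r, o), (b, !r, o)] ++ v ++
      (if q then [(a, !r, !o), (b, r, !o)] else [(b, r, !o), (a, !r, !o)]) ++ z)) :
    V P (u ++ [(a, r, o), (b, !r, o)] ++ v ++
      (if q then [(a, !r, !o), (b, r, !o)] else [(b, r, !o), (a, !r, !o)]) ++ z) =
      V P (u ++ v ++ z) := by
  set w := u ++ [(a, r, o), (b, !r, o)] ++ v ++
      (if q then [(a, !r, !o), (b, r, !o)] else [(b, r, !o), (a, !r, !o)]) ++ z with hw
  -- the labels are different
  have hab : a ≠ b := by
    rintro rfl
    have h1 := gauss_len_le hG a
    rw [hw] at h1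
    simp only [sub_append, List.length_append] at h1
    cases q <;> simp [sub_cons, sub_nil] at h1 <;> omega
  have ha : a ∉ labels (u ++ v ++ z) := by
    intro h
    have h1 := gauss_len_le hG a
    rw [hw] at h1
    simp only [sub_append, List.length_append] at h1
    have h2 : 1 ≤ (sub {a} u).length + (sub {a} v).length + (sub {a} z).length := by
      obtain ⟨l, hl, hla⟩ := mem_labels.1 h
      have h3 : l ∈ sub {a} (u ++ v ++ z) := mem_sub.2 ⟨hl, by rw [hla]; simp⟩
      rw [sub_append, sub_append] at h3
      have h4 := List.length_pos_of_mem h3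
      rw [List.length_append, List.length_append] at h4
      exact h4
    cases q <;> simp [sub_cons, sub_nil, hab, hab.symm] at h1 <;> omega
  have hb : b ∉ labels (u ++ v ++ z) := by
    intro h
    have h1 := gauss_len_le hG b
    rw [hw] at h1
    simp only [sub_append, List.length_append] at h1
    have h2 : 1 ≤ (sub {b} u).length + (sub {b} v).length + (sub {b} z).length := by
      obtain ⟨l, hl, hla⟩ := mem_labels.1 h
      have h3 : l ∈ sub {b} (u ++ v ++ z) := mem_sub.2 ⟨hl, by rw [hla]; simp⟩
      rw [sub_append, sub_append] at h3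
      have h4 := List.length_pos_of_mem h3
      rw [List.length_append, List.length_append] at h4
      exact h4
    cases q <;> simp [sub_cons, sub_nil, hab, hab.symm] at h1 <;> omega
  have hL : labels w = insert a (insert b (labels (u ++ v ++ z))) := by
    rw [hw]
    ext n
    cases q <;> simp only [labels_append, labels_cons, labels_nil, Finset.mem_union,
      Finset.mem_insert, Finset.notMem_empty, or_false, if_true, if_false, Bool.false_eq_true] <;>
      tauto
  have ha' : a ∉ insert b (labels (u ++ v ++ z)) := by
    rw [Finset.mem_insert, not_or]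
    exact ⟨hab, ha⟩
  simp only [labels_append, Finset.mem_union, not_or] at ha hb
  unfold V
  rw [hL, Finset.sum_powerset_insert ha', Finset.sum_powerset_insert (by
    simp only [labels_append, Finset.mem_union, not_or]; exact hb), Finset.sum_powerset_insert (by
    simp only [labels_append, Finset.mem_union, not_or]; exact hb)]
  have hT : ∀ T ∈ (labels (u ++ v ++ z)).powerset, a ∉ T ∧ b ∉ T := by
    intro T hT
    rw [Finset.mem_powerset] at hT
    constructor
    · intro h
      have := hT h
      simp only [labels_append, Finset.mem_union] at this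
      tauto
    · intro h
      have := hT h
      simp only [labels_append, Finset.mem_union] at this
      tauto
  have k0 : ∀ T ∈ (labels (u ++ v ++ z)).powerset, sub T w = sub T (u ++ v ++ z) := by
    intro T h
    obtain ⟨h1, h2⟩ := hT T h
    rw [hw]
    cases q <;> simp [sub_append, sub_cons, sub_nil, h1, h2]
  have k1 : ∀ T ∈ (labels (u ++ v ++ z)).powerset, sub (insert a T) w =
      sub T u ++ [(a, r, o)] ++ sub T v ++ [(a, !r, !o)] ++ sub T z := by
    intro T h
    obtain ⟨h1, h2⟩ := hT T h
    rw [hw]
    cases q <;> simp [sub_append, sub_cons, sub_nil, h2, hab.symm, sub_insert ha.1.1,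
      sub_insert ha.1.2, sub_insert ha.2]
  have k2 : ∀ T ∈ (labels (u ++ v ++ z)).powerset, sub (insert b T) w =
      sub T u ++ [(b, !r, o)] ++ sub T v ++ [(b, r, !o)] ++ sub T z := by
    intro T h
    obtain ⟨h1, h2⟩ := hT T h
    rw [hw]
    cases q <;> simp [sub_append, sub_cons, sub_nil, h1, hab, sub_insert hb.1.1,
      sub_insert hb.1.2, sub_insert hb.2]
  have k3 : ∀ T ∈ (labels (u ++ v ++ z)).powerset, f P (sub (insert a (insert b T)) w) = 0 := by
    intro T h
    obtain ⟨h1, h2⟩ := hT T h
    have h3 : sub (insert a (insert b T)) w = sub T u ++ [(a, r, o), (b, !r, o)] ++ sub T v ++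
      (if q then [(a, !r, !o), (b, r, !o)] else [(b, r, !o), (a, !r, !o)]) ++ sub T z := by
      rw [hw]
      cases q <;> simp [sub_append, sub_cons, sub_nil, sub_insert ha.1.1,
        sub_insert ha.1.2, sub_insert ha.2, sub_insert hb.1.1,
        sub_insert hb.1.2, sub_insert hb.2]
    rw [h3]
    exact f_bad hP hl _ _ _ a b r o q
  rw [Finset.sum_congr rfl fun T h => congrArg (f P) (k0 T h),
    Finset.sum_congr rfl fun T h => k3 T h, Finset.sum_const_zero, add_zero]
  have k4 : ∑ T ∈ (labels (u ++ v ++ z)).powerset, f P (sub (insert b T) w) +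
      ∑ T ∈ (labels (u ++ v ++ z)).powerset, f P (sub (insert a T) w) = 0 := by
    rw [← Finset.sum_add_distrib]
    apply Finset.sum_eq_zero
    intro T h
    rw [k1 T h, k2 T h, add_comm]
    apply f_cancel
    · intro h5
      simp only [labels_append, Finset.mem_union] at h5
      rcases h5 with (h5 | h5) | h5
      · exact ha.1.1 (Finset.mem_inter.1 (labels_sub _ _ h5)).1
      · exact ha.1.2 (Finset.mem_inter.1 (labels_sub _ _ h5)).1
      · exact ha.2 (Finset.mem_inter.1 (labels_sub _ _ h5)).1
    · intro h5
      simp only [labels_append, Finset.mem_union] at h5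
      rcases h5 with (h5 | h5) | h5
      · exact hb.1.1 (Finset.mem_inter.1 (labels_sub _ _ h5)).1
      · exact hb.1.2 (Finset.mem_inter.1 (labels_sub _ _ h5)).1
      · exact hb.2 (Finset.mem_inter.1 (labels_sub _ _ h5)).1
  rw [add_assoc, k4, add_zero]

theorem vr2a : VR2aStmt := fun u v z a b r o h =>
  ⟨vr2 p2_good p2_len u v z a b r o true h, vr2 p3_good p3_len u v z a b r o true h⟩

theorem vr2b : VR2bStmt := fun u v z a b r o h =>
  ⟨vr2 p2_good p2_len u v z a b r o false h, vr2 p3_good p3_len u v z a b r o false h⟩

end Pool.Agent.ZOL.H11
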