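import Pool.Agent.Helper11_ZOL.VR2

/-!
# ZOL: the third Reidemeister move
-/

namespace Pool.Agent.ZOL.H11

open Finset

theorem length_top (q a b : ℕ) (t m d e : Bool) : (sub {q} (topPair a b t m d e)).length =
    (if a = q then 1 else 0) + (if b = q then 1 else 0) := by
  by_cases h1 : a = q <;> by_cases h2 : b = q <;> cases t <;>
    simp [topPair, sub_cons, sub_nil, h1, h2]

theorem length_mid (q a c : ℕ) (t m d e : Bool) : (sub {q} (midPair a c t m d e)).length =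
    (if a = q then 1 else 0) + (if c = q then 1 else 0) := by
  by_cases h1 : a = q <;> by_cases h2 : c = q <;> cases m <;>
    simp [midPair, sub_cons, sub_nil, h1, h2]

theorem length_bot (q b c : ℕ) (t m d e : Bool) : (sub {q} (botPair b c t m d e)).length =
    (if b = q then 1 else 0) + (if c = q then 1 else 0) := by
  by_cases h1 : b = q <;> by_cases h2 : c = q <;> cases d <;>
    simp [botPair, sub_cons, sub_nil, h1, h2]

/-- the labels of the three crossings are different and do not occur elsewhere -/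
theorem tri {u₀ u₁ u₂ u₃ s₁ s₂ s₃ : Word} {a b c : ℕ} {t m d e : Bool}
    (h : [s₁, s₂, s₃].Perm [topPair a b t m d e, midPair a c t m d e, botPair b c t m d e])
    (hG : IsGauss (u₀ ++ s₁ ++ u₁ ++ s₂ ++ u₂ ++ s₃ ++ u₃)) :
    a ≠ b ∧ a ≠ c ∧ b ≠ c ∧ ∀ x ∈ labels (u₀ ++ u₁ ++ u₂ ++ u₃), x ≠ a ∧ x ≠ b ∧ x ≠ c ∧
      ∃ y : Letter, y.1 = x ∧ sub {x} u₀ ++ sub {x} u₁ ++ sub {x} u₂ ++ sub {x} u₃ = [y, bar y] := by
  have hs : ∀ q : ℕ, (sub {q} s₁).length + (sub {q} s₂).length + (sub {q} s₃).length =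
      (if a = q then 1 else 0) + (if b = q then 1 else 0) +
      ((if a = q then 1 else 0) + (if c = q then 1 else 0)) +
      ((if b = q then 1 else 0) + (if c = q then 1 else 0)) := by
    intro q
    have h1 := (h.map (fun s => (sub {q} s).length)).sum_eq
    simp only [List.map_cons, List.map_nil, List.sum_cons, List.sum_nil, length_top, length_mid,
      length_bot] at h1
    omega
  have hle : ∀ q : ℕ, (sub {q} u₀).length + (sub {q} u₁).length + (sub {q} u₂).length +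
      (sub {q} u₃).length + ((sub {q} s₁).length + (sub {q} s₂).length + (sub {q} s₃).length) ≤
        2 := by
    intro q
    have h1 := gauss_len_le hG q
    simp only [sub_append, List.length_append] at h1
    omega
  have hu : ∀ q ∈ labels (u₀ ++ u₁ ++ u₂ ++ u₃), 1 ≤ (sub {q} u₀).length + (sub {q} u₁).length +
      (sub {q} u₂).length + (sub {q} u₃).length := by
    intro q hq
    obtain ⟨l, hl, hla⟩ := mem_labels.1 hq
    have h3 : l ∈ sub {q} (u₀ ++ u₁ ++ u₂ ++ u₃) := mem_sub.2 ⟨hl, by rw [hla]; simp⟩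
    rw [sub_append, sub_append, sub_append] at h3
    have h4 := List.length_pos_of_mem h3
    simp only [List.length_append] at h4
    exact h4
  have hab : a ≠ b := by
    rintro rfl
    have h1 := hle a
    rw [hs] at h1
    simp only [if_true] at h1
    omega
  have hac : a ≠ c := by
    rintro rfl
    have h1 := hle a
    rw [hs] at h1
    simp only [if_true] at h1
    omega
  have hbc : b ≠ c := by
    rintro rfl
    have h1 := hle b
    rw [hs] at h1
    simp only [if_true] at h1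
    omega
  refine ⟨hab, hac, hbc, ?_⟩
  intro x hx
  have hx1 := hu x hx
  have hx2 := hle x
  rw [hs x] at hx2
  have hxa : x ≠ a := by
    rintro rfl
    simp only [if_true] at hx2
    omega
  have hxb : x ≠ b := by
    rintro rfl
    simp only [if_true] at hx2
    omega
  have hxc : x ≠ c := by
    rintro rfl
    simp only [if_true] at hx2
    omega
  refine ⟨hxa, hxb, hxc, ?_⟩
  have hs0 := hs x
  rw [if_neg hxa.symm, if_neg hxb.symm, if_neg hxc.symm] at hs0
  have n1 : sub {x} s₁ = [] := List.eq_nil_of_length_eq_zero (by omega)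
  have n2 : sub {x} s₂ = [] := List.eq_nil_of_length_eq_zero (by omega)
  have n3 : sub {x} s₃ = [] := List.eq_nil_of_length_eq_zero (by omega)
  have hxW : x ∈ labels (u₀ ++ s₁ ++ u₁ ++ s₂ ++ u₂ ++ s₃ ++ u₃) := by
    simp only [labels_append, Finset.mem_union] at hx ⊢
    tauto
  obtain ⟨l, hl⟩ := hG x hxW
  refine ⟨l, ?_, ?_⟩
  · have h1 : l ∈ sub {x} (u₀ ++ s₁ ++ u₁ ++ s₂ ++ u₂ ++ s₃ ++ u₃) := by
      rw [hl]
      simp
    have h2 := (mem_sub.1 h1).2
    simpa using h2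
  · rw [← hl]
    simp only [sub_append, n1, n2, n3, List.append_nil]

theorem vr3a (hsum : DSumStmt) (hloc : DLoc2Stmt) : VR3aStmt := by
  intro u₀ u₁ u₂ u₃ s₁ s₂ s₃ a b c t m d e h hG
  obtain ⟨hab, hac, hbc, hx⟩ := tri h hG
  have h1 := hsum P2 p2_len u₀ u₁ u₂ u₃ s₁ s₂ s₃ a b c t m d e h hG
  obtain ⟨x₀, hx0⟩ : ∃ x₀ : ℕ, x₀ ≠ a ∧ x₀ ≠ b ∧ x₀ ≠ c := ⟨a + b + c + 1, by omega, by omega, by omega⟩
  have h2 := hloc s₁ s₂ s₃ [] [] [] [] a b c x₀ t m d e (x₀, true, true) h hab hac hbc hx0.1 hx0.2.1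
    hx0.2.2 rfl (Or.inl rfl)
  have h3 : ∑ x ∈ labels (u₀ ++ u₁ ++ u₂ ++ u₃),
        dloc P2 a b c s₁ s₂ s₃ (sub {x} u₀) (sub {x} u₁) (sub {x} u₂) (sub {x} u₃) = 0 := by
    apply Finset.sum_eq_zero
    intro x hxl
    obtain ⟨k1, k2, k3, y, hy, hy'⟩ := hx x hxl
    exact hloc s₁ s₂ s₃ _ _ _ _ a b c x t m d e y h hab hac hbc k1 k2 k3 hy (Or.inr hy')
  rw [h2, h3, add_zero] at h1
  exact sub_eq_zero.1 h1

theorem vr3b (hsum : DSumStmt) (hloc : DLoc3Stmt) (hlocT : DLoc3TStmt) (hrel : PRelStmt) :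
    VR3bStmt := by
  intro u₀ u₁ u₂ u₃ s₁ s₂ s₃ a b c t m d e h hG hP
  obtain ⟨hab, hac, hbc, hx⟩ := tri h hG
  have h1 := hsum P3 p3_len u₀ u₁ u₂ u₃ s₁ s₂ s₃ a b c t m d e h hG
  obtain ⟨x₀, hx0⟩ : ∃ x₀ : ℕ, x₀ ≠ a ∧ x₀ ≠ b ∧ x₀ ≠ c := ⟨a + b + c + 1, by omega, by omega, by omega⟩
  by_cases ho : [s₁, s₂, s₃] = [topPair a b t m d e, botPair b c t m d e, midPair a c t m d e]
  · simp only [List.cons.injEq, and_true] at ho
    obtain ⟨rfl, rfl, rfl⟩ := ho
    have h2 := (hlocT [] [] [] [] a b c x₀ t m d e (x₀, true, true) hab hac hbc hx0.1 hx0.2.1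
      hx0.2.2 rfl).1
    have h3 : ∑ x ∈ labels (u₀ ++ u₁ ++ u₂ ++ u₃),
        dloc P3 a b c (topPair a b t m d e) (botPair b c t m d e) (midPair a c t m d e)
          (sub {x} u₀) (sub {x} u₁) (sub {x} u₂) (sub {x} u₃) =
        (bs t * bs m * bs d) * kap t m d e := by
      rw [← hrel u₀ u₁ u₂ u₃ a b c t m d e hG hP, Finset.mul_sum]
      refine Finset.sum_congr rfl fun x hxl => ?_
      obtain ⟨k1, k2, k3, y, hy, hy'⟩ := hx x hxl
      exact (hlocT _ _ _ _ a b c x t m d e y hab hac hbc k1 k2 k3 hy).2 hy'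
    rw [h2, h3] at h1
    apply sub_eq_zero.1
    rw [h1]
    ring
  · have h2 := hloc s₁ s₂ s₃ [] [] [] [] a b c x₀ t m d e (x₀, true, true) h ho hab hac hbc hx0.1
      hx0.2.1 hx0.2.2 rfl (Or.inl rfl)
    have h3 : ∑ x ∈ labels (u₀ ++ u₁ ++ u₂ ++ u₃),
        dloc P3 a b c s₁ s₂ s₃ (sub {x} u₀) (sub {x} u₁) (sub {x} u₂) (sub {x} u₃) = 0 := by
      apply Finset.sum_eq_zero
      intro x hxl
      obtain ⟨k1, k2, k3, y, hy, hy'⟩ := hx x hxl
      exact hloc s₁ s₂ s₃ _ _ _ _ a b c x t m d e y h ho hab hac hbc k1 k2 k3 hy (Or.inr hy')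
    rw [h2, h3, add_zero] at h1
    exact sub_eq_zero.1 h1

end Pool.Agent.ZOL.H11
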